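import Pool.Agent.Q101.QGHull

/-!
# Generic conformal factors: no prescribed sequence of eigenfunctions is exceptional

Let `(M, g)` be a closed surface with a continuous Riemannian metric (for instance a smooth metric of
negative curvature), and fix a sequence of indices `J k → ∞`. For a conformal factor `φ` let
`u 0, u 1, ...` be any orthonormal basis of eigenfunctions of the metric `exp φ · g`, ordered by the
eigenvalue, and `μ_k = (u (J k))² dA` the measures along the sequence.

Let `B` be a topological vector space (a Baire space, for instance the space of smooth functions with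
the `C^∞` topology) which is mapped linearly, continuously and with dense range to `C(M)`. Outside a
meagre set of `φ ∈ B` (hence for a residual set of the `φ` for which `exp φ · g` is, for instance,
smooth with negative curvature, as those form an open set of smooth functions) the following holds
for all continuous `f`, `ε > 0`: there are infinitely many `k` such that
`∫ f dμ_k ≤ mean value of f + ε` for all choices of the basis at the same time (replace `f` by `-f`
for the other inequality), and the uniform measure belongs to the weak-* closed convex hull of every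
tail `{μ_k : k ≥ K}`. In particular: if the measures `μ_k` converge, their limit is uniform.

Idea. Along a line `φ + t h` the logarithmic derivative of the `j`-th eigenvalue is `-∫ h (u j)² dA` for
almost all `t`, for all normalized eigenfunctions at once (eigenbases are rotated by a reflection),
and Weyl's law gives the integrals. So near every `φ` there is a metric with a good index `J k`, and the
set of good metrics is open, as the eigenvectors of a perturbed pair of forms are close to those of
the original pair, with multiplicities. The last step is a separation argument. Weyl's law and the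
spectral theory of continuous metrics are those of the library `Pool.Agent.Y264.QR` (many authors).
-/

set_option autoImplicit false

open Set Filter Topology MeasureTheory
open Pool.Agent.Y262.QE

noncomputable section

namespace Pool.Agent.Results.MP_07c750_an.GenericMetrics

/-- `u 0, u 1, ...` is an orthonormal basis of `L² (μ)` which consists of eigenfunctions of the
Laplacian of the surface `D` with the area `μ`; the eigenvalues `lam 0 ≤ lam 1 ≤ ...` are ordered -/
structure IsEigenbasis {M : Type} [MeasurableSpace M] (D : Data M) (μ : Measure M)
    (u : ℕ → M → ℝ) (lam : ℕ → ℝ) : Prop where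
  eig : ∀ j, D.IsEig μ (lam j) (u j)
  mono : Monotone lam
  orth : ∀ i j, ∫ x, u i x * u j x ∂μ = if i = j then 1 else 0
  total : ∀ f : M → ℝ, MemLp f 2 μ → (∀ j, ∫ x, f x * u j x ∂μ = 0) → f =ᵐ[μ] 0

/-- the surface with the metric `exp φ · g` -/
def surf {M : Type} [TopologicalSpace M] (D : Data M) (φ : C(M, ℝ)) : Data M :=
  D.conf fun x => Real.exp (φ x)

/-- the area of the metric `exp φ · g` -/
def area {M : Type} [TopologicalSpace M] [MeasurableSpace M] (μ : Measure M) (φ : C(M, ℝ)) :
    Measure M :=
  wm μ fun x => Real.exp (φ x)

/-- for every tail of the sequence of the measures `(v k)² dμ` the uniform measure belongs to the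
weak-* closed convex hull: mixtures of finitely many of these measures with large indices come
arbitrarily close to the uniform measure on finitely many continuous functions -/
def Mix {M : Type} [TopologicalSpace M] [MeasurableSpace M] (μ : Measure M) (v : ℕ → M → ℝ) : Prop :=
  ∀ (n : ℕ) (f : Fin n → C(M, ℝ)) (K : ℕ),
    (fun l => (∫ x, f l x ∂μ) / μ.real univ) ∈
      closure (convexHull ℝ {q : Fin n → ℝ | ∃ k, K ≤ k ∧ q = fun l => ∫ x, f l x * (v k x) ^ 2 ∂μ})

theorem result (M : Type) [MetricSpace M] [CompactSpace M] [MeasurableSpace M] [BorelSpace M]
    [Nonempty M] (μ : Measure M) (D : Data M) (hD : D.IsSurf μ) (J : ℕ → ℕ)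
    (hJ : Tendsto J atTop atTop)
    (B : Type) [AddCommGroup B] [Module ℝ B] [TopologicalSpace B] [IsTopologicalAddGroup B]
    [ContinuousSMul ℝ B] (ι : B →L[ℝ] C(M, ℝ)) (hι : DenseRange ι) :
    ∀ᶠ y in residual B,
      (∀ (f : C(M, ℝ)) (ε : ℝ) (K : ℕ), 0 < ε → ∃ k, K ≤ k ∧
        ∀ (u : ℕ → M → ℝ) (lam : ℕ → ℝ), IsEigenbasis (surf D (ι y)) (area μ (ι y)) u lam →
          ∫ x, f x * (u (J k) x) ^ 2 ∂(area μ (ι y)) ≤
            (∫ x, f x ∂(area μ (ι y))) / (area μ (ι y)).real univ + ε) ∧
      ∀ (u : ℕ → M → ℝ) (lam : ℕ → ℝ), IsEigenbasis (surf D (ι y)) (area μ (ι y)) u lam →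
        Mix (area μ (ι y)) fun k => u (J k) := by
  filter_upwards [Q101.QG.surf_generic μ D hD J hJ B ι hι] with y hy
  refine ⟨fun f ε K hε => ?_, fun u lam hu n f K => ?_⟩
  · obtain ⟨k, hk1, hk2⟩ := hy.1 f ε K hε
    exact ⟨k, hk1, fun u lam hu => hk2 u lam ⟨hu.eig, hu.mono, hu.orth, hu.total⟩⟩
  · exact hy.2 u lam ⟨hu.eig, hu.mono, hu.orth, hu.total⟩ n f K

end Pool.Agent.Results.MP_07c750_an.GenericMetrics
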