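import Pool.Agent.Q93.QC.Main

/-!
# Generic metrics: quantum unique ergodicity is a locally uniform property

Let `M` be a closed surface and `(g_y)`, `y ∈ Y`, a family of Riemannian metrics on `M` which is
continuous for the `C^0` topology: for every `κ > 1` and all `z` near `y` the norms of `g_y` and `g_z`
differ at most by the factor `κ`. A function `h` is called a direction of the family if for every `y`
the family contains metrics `exp (t h) · g_y`, for small `t > 0`, which tend to `g_y` as `t → 0`.

Examples: `Y` is the set of the smooth metrics of negative curvature on `M` with the `C^∞` topology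
(an open subset of a Fréchet space, so a Baire space), or any open subset of it, or the metrics in a
conformal class; all smooth functions are directions, so the directions are dense in `C(M)`. Or `Y` is a
topological vector space (for instance `ℝⁿ`) which is mapped linearly and continuously to `C(M)`, and
`g_y = exp (ι y) · g`; the image consists of directions. The metrics are given by orthonormal coframes
in finitely many charts (for instance by the positive square roots of the matrices of the metrics).

All normalized real eigenfunctions are considered, also those of degenerate eigenvalues. Let `F` be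
a set of pairs `(f, r)` where `f` is in the closure of the set of the directions and `r` is a continuous
function of the eigenvalue. `P (F)` is the property that for all `(f, r) ∈ F` and all normalized
eigenfunctions `v` with large eigenvalues `E` the integral of `f v²` is at most the mean value of `f`
plus `r E`. (With `(f, r)` and `(-f, r)` this is a two-sided bound; if `F` consists of all `(f, r)`
with 1-Lipschitz functions `f` it says that the Wasserstein distance of `v² dA` and the uniform
measure is at most `r E`.)

* **Dense exceptions are generic.** If the metrics without `P (F)` are dense in an open set `V` then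
  they are generic in `V`.
* **Local uniformity.** For all `y` outside a meagre set: `P (F)` holds for `g_y` if and only if it
  holds uniformly for all metrics near `g_y`. If the directions are dense, then for all `y` outside
  one meagre set every asymptotic bound `∫ f v² ≤ mean f + c` for the metric `g_y` holds, up to an
  arbitrarily small error, uniformly for all metrics near `g_y`: the limits of the measures
  `v² dA` as `E → ∞`, and those as `(E, z) → (∞, y)`, satisfy the same linear inequalities.
  Quantum unique ergodicity (QUE) holds for `y` if and only if it holds locally uniformly near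
  `y`, and the set of the metrics with QUE is open up to a meagre set.
* If `Y` is a Baire space, the directions are dense and `U` is an open set then QUE holds for generic
  `y` in `U` if and only if for each `f` and `ε` the metrics with infinitely many `ε`-exceptional
  eigenvalues (for `f`) are nowhere dense in `U`, if and only if in every open part of `U` the others
  are at least not meagre.

The main step: if a normalized eigenfunction `v` of a (possibly degenerate) eigenvalue of the metric
`g_y` has too much mass of `h`, then for some arbitrarily small `t > 0` the metric `exp (t h) · g_y`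
has the property that **all** eigenfunctions of the lowest index of the cluster have nearly as much
mass of `h`, as the lowest eigenvalue of the cluster must decrease at least as fast as `v`
predicts (`Q93/QB/Sel`), and then the same is true for all metrics near this one (`Q93/QC/Near`; this
needs the stability of eigenspaces when both the Dirichlet form and the area vary, and the transfer
between the form domains of two metrics).

The spectral theory of continuous metrics, the derivative of the eigenvalues and the existence of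
eigenbases are those of the library `Pool.Agent.Y264.QR` (many authors), the continuity of
eigenvalues under changes of the metric that of `Q93.BGS`; `Q93/QC/Stab` follows `Q101.QG`.
-/

set_option autoImplicit false

open Set Filter Topology MeasureTheory
open Pool.Agent.Y262.QE Pool.Agent.Q93.QB Pool.Agent.Q93.QC Pool.Agent.Q93.BGS

noncomputable section

namespace Pool.Agent.Results.MP_07c750_an.LocallyUniformQUE

/-- the surface with the charts of `D` and the orthonormal coframes `A`: the metric is
`v ↦ ‖A i z v‖ ^ 2` -/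
def withMetric {M : Type} (D : Data M) (A : Fin D.N → ℂ → ℂ →L[ℝ] ℂ) : Data M where
  N := D.N
  U := D.U
  φ := D.φ
  ψ := D.ψ
  A := A

/-- the metrics `A y` depend continuously on `y`: for all `κ > 1` and all `z` near `y` the norms of
the two metrics differ at most by the factor `κ`, uniformly on the surface -/
def ContinuousFamily {M Y : Type} [TopologicalSpace Y] (D : Data M)
    (A : Y → Fin D.N → ℂ → ℂ →L[ℝ] ℂ) : Prop :=
  ∀ (y : Y) (κ : ℝ), 1 < κ → ∀ᶠ y' in 𝓝 y, ∀ i, ∀ z ∈ D.T i, ∀ v : ℂ,
    ‖A y i z v‖ ≤ κ * ‖A y' i z v‖ ∧ ‖A y' i z v‖ ≤ κ * ‖A y i z v‖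

/-- the directions of the family: the functions `h` such that for every `y` the family contains
metrics `exp (t h) · g_y` for small `t > 0`, which tend to `g_y` as `t → 0` -/
def Directions {M Y : Type} [TopologicalSpace M] [TopologicalSpace Y] (D : Data M)
    (A : Y → Fin D.N → ℂ → ℂ →L[ℝ] ℂ) : Set C(M, ℝ) :=
  {h | ∀ y, ∃ s : ℝ → Y, Tendsto s (𝓝[>] 0) (𝓝 y) ∧ ∀ᶠ t in 𝓝[>] (0 : ℝ), ∀ i, ∀ z ∈ D.T i,
    ∀ v : ℂ, ‖A (s t) i z v‖ ^ 2 = Real.exp (t * h (D.ψ i z)) * ‖A y i z v‖ ^ 2}

/-- the mean value of `f` -/
def mean {M : Type} [TopologicalSpace M] [MeasurableSpace M] (μ : Measure M) (f : C(M, ℝ)) : ℝ :=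
  (∫ x, f x ∂μ) / μ.real univ

/-- **Quantum unique ergodicity**: for every sequence of normalized real eigenfunctions `v n` whose
eigenvalues tend to infinity the measures `(v n)² dμ` converge weakly to the uniform measure. -/
def QUE {M : Type} [TopologicalSpace M] [MeasurableSpace M] (D : Data M) (μ : Measure M) : Prop :=
  ∀ (E : ℕ → ℝ) (v : ℕ → M → ℝ), (∀ n, D.IsEig μ (E n) (v n)) →
    (∀ n, ∫ x, (v n x) ^ 2 ∂μ = 1) → Tendsto E atTop atTop → ∀ f : C(M, ℝ),
      Tendsto (fun n => ∫ x, f x * (v n x) ^ 2 ∂μ) atTop (𝓝 (mean μ f))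

/-- for all normalized real eigenfunctions `v` with an eigenvalue `E` of at least `L` and all
pairs `(f, r)` of `F` the integral of `f v²` is at most the mean value of `f` plus `r E` -/
def Within {M : Type} [TopologicalSpace M] [MeasurableSpace M] (D : Data M) (μ : Measure M)
    (F : Set (C(M, ℝ) × (ℝ → ℝ))) (L : ℕ) : Prop :=
  ∀ (E : ℝ) (v : M → ℝ), D.IsEig μ E v → ∫ x, (v x) ^ 2 ∂μ = 1 → (L : ℝ) ≤ E →
    ∀ p ∈ F, ∫ x, p.1 x * (v x) ^ 2 ∂μ ≤ mean μ p.1 + p.2 E

theorem result (M : Type) [MetricSpace M] [CompactSpace M] [MeasurableSpace M] [BorelSpace M]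
    [Nonempty M] (D : Data M) (Y : Type) [TopologicalSpace Y]
    (A : Y → Fin D.N → ℂ → ℂ →L[ℝ] ℂ) (μ : Y → Measure M)
    (hD : ∀ y, (withMetric D (A y)).IsSurf (μ y)) (hA : ContinuousFamily D A) :
    (∀ F : Set (C(M, ℝ) × (ℝ → ℝ)),
      (∀ p ∈ F, p.1 ∈ closure (Directions D A) ∧ Continuous p.2) →
      -- dense exceptions are generic
      (∀ V : Set Y, IsOpen V →
        V ⊆ closure {y | y ∈ V ∧ ∀ L, ¬ Within (withMetric D (A y)) (μ y) F L} →
        ∀ᶠ y in residual Y, y ∈ V → ∀ L, ¬ Within (withMetric D (A y)) (μ y) F L) ∧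
      -- local uniformity
      (∀ᶠ y in residual Y, ((∃ L, Within (withMetric D (A y)) (μ y) F L) ↔
        ∃ L, ∀ᶠ z in 𝓝 y, Within (withMetric D (A z)) (μ z) F L)) ∧
      -- equivalent forms in open sets
      (BaireSpace Y → ∀ U : Set Y, IsOpen U →
        [∀ᶠ y in residual Y, y ∈ U → ∃ L, Within (withMetric D (A y)) (μ y) F L,
          ∀ V : Set Y, IsOpen V → V.Nonempty → V ⊆ U →
            ¬ IsMeagre {y | y ∈ V ∧ ∃ L, Within (withMetric D (A y)) (μ y) F L},
          IsNowhereDense {y | y ∈ U ∧ ∀ L, ¬ Within (withMetric D (A y)) (μ y) F L},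
          U ⊆ closure {y | ∃ L, ∀ᶠ z in 𝓝 y,
            Within (withMetric D (A z)) (μ z) F L}].TFAE)) ∧
    (Dense (Directions D A) →
      -- all functions and constants at once
      (∀ᶠ y in residual Y, ∀ (f : C(M, ℝ)) (c ε : ℝ), 0 < ε →
        (∃ L, Within (withMetric D (A y)) (μ y) {(f, fun _ => c)} L) →
        ∃ L, ∀ᶠ z in 𝓝 y, Within (withMetric D (A z)) (μ z) {(f, fun _ => c + ε)} L) ∧
      -- the topological law for quantum unique ergodicity
      (∃ U₀ : Set Y, IsOpen U₀ ∧ ∀ᶠ y in residual Y,
        (QUE (withMetric D (A y)) (μ y) ↔ y ∈ U₀) ∧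
        (QUE (withMetric D (A y)) (μ y) ↔ ∀ (f : C(M, ℝ)) (ε : ℝ), 0 < ε → ∃ L,
          ∀ᶠ z in 𝓝 y, Within (withMetric D (A z)) (μ z) {(f, fun _ => ε)} L)) ∧
      -- equivalent forms in open sets
      (BaireSpace Y → ∀ U : Set Y, IsOpen U →
        [∀ᶠ y in residual Y, y ∈ U → QUE (withMetric D (A y)) (μ y),
          ∀ V : Set Y, IsOpen V → V.Nonempty → V ⊆ U →
            ¬ IsMeagre {y | y ∈ V ∧ QUE (withMetric D (A y)) (μ y)},
          ∀ (f : C(M, ℝ)) (ε : ℝ), 0 < ε → ∀ V : Set Y, IsOpen V → V.Nonempty → V ⊆ U →
            ¬ IsMeagre {y | y ∈ V ∧ ∃ L,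
              Within (withMetric D (A y)) (μ y) {(f, fun _ => ε)} L},
          ∀ (f : C(M, ℝ)) (ε : ℝ), 0 < ε →
            IsNowhereDense {y | y ∈ U ∧ ∀ L,
              ¬ Within (withMetric D (A y)) (μ y) {(f, fun _ => ε)} L},
          ∀ (f : C(M, ℝ)) (ε : ℝ), 0 < ε → U ⊆ closure {y | ∃ L, ∀ᶠ z in 𝓝 y,
            Within (withMetric D (A z)) (μ z) {(f, fun _ => ε)} L}].TFAE)) := by
  have hS : ∀ y, (recf D (A y)).IsSurf (μ y) := hD
  have hC : ∀ (y : Y) (κ : ℝ), 1 < κ → ∀ᶠ y' in 𝓝 y,
      Cmp D (A y) (A y') κ ∧ Cmp D (A y') (A y) κ := by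
    intro y κ hκ
    filter_upwards [hA y κ hκ] with y' hy'
    exact ⟨fun i z hz v => (hy' i z hz v).1, fun i z hz v => (hy' i z hz v).2⟩
  have hDir : ∀ (f : C(M, ℝ)), f ∈ closure (Directions D A) → ∀ y, f ∈ closure (Dir D A y) :=
    fun f hf y => closure_mono (show Directions D A ⊆ Dir D A y from fun h hh => hh y) hf
  have hW : ∀ (F : Set (C(M, ℝ) × (ℝ → ℝ))) (L : ℕ) (y : Y),
      Within (withMetric D (A y)) (μ y) F L ↔ y ∈ WS D A μ F L := fun F L y => Iff.rfl
  constructor
  · intro F hF
    have hF' : ∀ p ∈ F, Continuous p.2 ∧ ∀ y, p.1 ∈ closure (Dir D A y) :=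
      fun p hp => ⟨(hF p hp).2, hDir p.1 (hF p hp).1⟩
    refine ⟨?_, ?_, ?_⟩
    · intro V hV hd
      exact dense_generic (fun (_ : Unit) L => WS D A μ F L) ()
        (fun L => ⟨L + 1, kpF hS hC F hF' L⟩) V hV hd
    · filter_upwards [lawF hS hC F hF'] with y hy
      constructor
      · intro h
        exact hy h
      · rintro ⟨L, hL⟩
        exact ⟨L, hL.self_of_nhds⟩
    · intro hBa U hU
      have h := tfae (fun (_ : Unit) L => WS D A μ F L)
        (fun _ => ⟨(), fun L => ⟨L + 1, kpF hS hC F hF' L⟩⟩) univ countable_univ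
        (fun p => ⟨p, mem_univ _, fun _ => subset_rfl⟩) U hU
      have hR : ∀ y : Y, y ∈ Lim (fun (_ : Unit) L => WS D A μ F L) ↔
          ∃ L, Within (withMetric D (A y)) (μ y) F L := fun y => ⟨fun h => h (), fun h _ => h⟩
      tfae_have 1 → 2 := by
        intro h1
        have h2 := (h.out 0 1).1 (by
          filter_upwards [h1] with y hy hyU
          exact (hR y).2 (hy hyU))
        intro V k1 k2 k3 hm
        refine h2 V k1 k2 k3 (IsMeagre.mono ?_ hm)
        rintro y ⟨hy1, hy2⟩
        exact ⟨hy1, (hR y).1 hy2⟩
      tfae_have 2 → 3 := by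
        intro h1
        have h2 := (h.out 1 3).1 (by
          intro V k1 k2 k3 hm
          refine h1 V k1 k2 k3 (IsMeagre.mono ?_ hm)
          rintro y ⟨hy1, hy2⟩
          exact ⟨hy1, (hR y).2 hy2⟩)
        exact h2 ()
      tfae_have 3 → 4 := by
        intro h1
        have h2 := (h.out 3 4).1 (fun _ => h1)
        exact h2 ()
      tfae_have 4 → 1 := by
        intro h1
        have h2 := (h.out 4 0).1 (fun _ => h1)
        filter_upwards [h2] with y hy hyU
        exact (hR y).1 (hy hyU)
      tfae_finish
  · intro hdense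
    have hall : ∀ (f : C(M, ℝ)) (y : Y), f ∈ closure (Dir D A y) :=
      fun f y => hDir f (hdense f) y
    have hkp : ∀ p : Pr M, ∃ q, ∀ L, ∃ L', interior (closure (SP D A μ q L)) ⊆ SP D A μ p L' := by
      intro p
      refine ⟨p, fun L => ⟨L + 1, kpF hS hC _ ?_ L⟩⟩
      intro p' hp'
      rw [mem_singleton_iff] at hp'
      subst hp'
      exact ⟨continuous_const, hall p.1⟩
    obtain ⟨I, hI, hc⟩ := cofF (D := D) (A := A) (m := μ) hS
    have hQ : ∀ y : Y, QUE (withMetric D (A y)) (μ y) ↔ y ∈ Lim (SP D A μ) := by
      intro y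
      refine (que_iff' (withMetric D (A y)) (μ y)).trans ?_
      constructor
      · rintro h ⟨f, ⟨ε, hε⟩⟩
        exact h f ε hε
      · intro h f ε hε
        exact h (f, ⟨ε, hε⟩)
    have hLoc : ∀ y : Y, (∀ p, y ∈ Loc (SP D A μ) p) ↔
        ∀ (f : C(M, ℝ)) (ε : ℝ), 0 < ε → ∃ L,
          ∀ᶠ z in 𝓝 y, Within (withMetric D (A z)) (μ z) {(f, fun _ => ε)} L := by
      intro y
      constructor
      · intro h f ε hε
        exact h (f, ⟨ε, hε⟩)
      · rintro h ⟨f, ⟨ε, hε⟩⟩
        exact h f ε hε
    refine ⟨hull hS hC hall, ?_, ?_⟩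
    · obtain ⟨U₀, hU₀, h⟩ := open_law (SP D A μ) hkp I hI hc
      refine ⟨U₀, hU₀, ?_⟩
      filter_upwards [h] with y hy
      rw [hQ, ← hLoc]
      exact hy
    · intro hBa U hU
      have h := tfae (SP D A μ) hkp I hI hc U hU
      tfae_have 1 → 2 := by
        intro h1
        have h2 := (h.out 0 1).1 (by
          filter_upwards [h1] with y hy hyU
          exact (hQ y).1 (hy hyU))
        intro V k1 k2 k3 hm
        refine h2 V k1 k2 k3 (IsMeagre.mono ?_ hm)
        rintro y ⟨hy1, hy2⟩
        exact ⟨hy1, (hQ y).2 hy2⟩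
      tfae_have 2 → 3 := by
        intro h1
        have h2 := (h.out 1 2).1 (by
          intro V k1 k2 k3 hm
          refine h1 V k1 k2 k3 (IsMeagre.mono ?_ hm)
          rintro y ⟨hy1, hy2⟩
          exact ⟨hy1, (hQ y).1 hy2⟩)
        intro f ε hε V k1 k2 k3 hm
        exact h2 (f, ⟨ε, hε⟩) V k1 k2 k3 hm
      tfae_have 3 → 4 := by
        intro h1
        have h2 := (h.out 2 3).1 (by
          rintro ⟨f, ⟨ε, hε⟩⟩ V k1 k2 k3 hm
          exact h1 f ε hε V k1 k2 k3 hm)
        intro f ε hε
        exact h2 (f, ⟨ε, hε⟩)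
      tfae_have 4 → 5 := by
        intro h1
        have h2 := (h.out 3 4).1 (by
          rintro ⟨f, ⟨ε, hε⟩⟩
          exact h1 f ε hε)
        intro f ε hε
        exact h2 (f, ⟨ε, hε⟩)
      tfae_have 5 → 1 := by
        intro h1
        have h2 := (h.out 4 0).1 (by
          rintro ⟨f, ⟨ε, hε⟩⟩
          exact h1 f ε hε)
        filter_upwards [h2] with y hy hyU
        exact (hQ y).2 (hy hyU)
      tfae_finish

end Pool.Agent.Results.MP_07c750_an.LocallyUniformQUE
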