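import Pool.Agent.Q233.CPC.Dirac2

/-!
# Point masses are quantum limits of generic continuous metrics

Let `(M, g)` be a closed surface with a continuous Riemannian metric, for instance a smooth metric of
negative curvature. For generic `φ ∈ C(M)` (a residual set for the topology of uniform convergence)
the eigenfunctions of the metric `exp φ · g` concentrate, along subsequences, at every point `x` of the
surface near which `g` has isothermal coordinates (every point, if `g` is smooth): there are
`k 0 < k 1 < ...` such that the probability measures `(u (k n))² dA` converge weakly to the point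
mass at `x`, for every ordered orthonormal eigenbasis `u 0, u 1, ...`. For every open set `U` around
`x`, every `θ > 0` and every `K` the existence of a `k ≥ K` such that the `k`-th eigenfunction has at
least the part `1 - θ` of its mass in `U` holds on an open dense set of `φ ∈ C(M)`, so also for a dense
set of smooth `φ`.

Idea of the proof. In a small square with isothermal coordinates the conformal factor is changed, by
an arbitrarily small continuous function, to a Bragg mirror (see `GenericClusters` for the problem
MP_a825e8_mp), so that there is a quasimode with support in the square and with an error which is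
exponentially small in the wave number. Let `0 ≤ h ≤ 1` be continuous with support near `x`, `h = 1` on
the square. Along the line `φ + t h` the numbers `exp t · lam k` do not decrease, and `exp t` times the
energy of the quasimode is constant. The speed of `exp t · lam k` is `exp t · lam k` times the mass of
`1 - h` for the `k`-th eigenfunctions, for almost all `t`. So every `k` for which this mass is at least
`θ` stays only for a very short time near the energy of the quasimode; by Weyl's law there are not
many of them, and for some `t` the eigenvalue near the energy has only eigenfunctions which are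
concentrated near `x` (an argument of Hassell). This persists under small perturbations of `φ`.

The spectral theory of the surfaces is from the projects QE, QR and QG (see
`Pool/Agent/Y264/QR/All.lean` and `Pool/Agent/Q101`).
-/

set_option autoImplicit false

open Set Filter Topology MeasureTheory
open Pool.Agent.Y262.QE

noncomputable section

namespace Pool.Agent.Results.MP_07c750_an.PointMasses

/-- `u 0, u 1, ...` is an orthonormal basis of `L² (μ)` which consists of eigenfunctions of the
Laplacian of the surface `D` with the area `μ`; the eigenvalues `lam 0 ≤ lam 1 ≤ ...` are ordered -/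
structure IsEigenbasis {M : Type} [MeasurableSpace M] (D : Data M) (μ : Measure M)
    (u : ℕ → M → ℝ) (lam : ℕ → ℝ) : Prop where
  eig : ∀ j, D.IsEig μ (lam j) (u j)
  mono : Monotone lam
  orth : ∀ i j, ∫ x, u i x * u j x ∂μ = if i = j then 1 else 0
  total : ∀ f : M → ℝ, MemLp f 2 μ → (∀ j, ∫ x, f x * u j x ∂μ = 0) → f =ᵐ[μ] 0

/-- the surface with the metric `exp φ · g` -/
def surf {M : Type} [TopologicalSpace M] (D : Data M) (φ : C(M, ℝ)) : Data M :=
  D.conf fun x => Real.exp (φ x)

/-- the area of the metric `exp φ · g` -/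
def area {M : Type} [TopologicalSpace M] [MeasurableSpace M] (μ : Measure M) (φ : C(M, ℝ)) :
    Measure M :=
  wm μ fun x => Real.exp (φ x)

/-- one of the charts around `x` is isothermal near `x` -/
def Isothermal {M : Type} (D : Data M) (x : M) : Prop :=
  ∃ i, x ∈ D.U i ∧ ∀ᶠ z in 𝓝 (D.φ i x), ∃ c : ℝ, ∀ v : ℂ, ‖D.A i z v‖ = c * ‖v‖

theorem result (M : Type) [MetricSpace M] [CompactSpace M] [MeasurableSpace M] [BorelSpace M]
    [Nonempty M] (μ : Measure M) (D : Data M) (hD : D.IsSurf μ) :
    (∀ φ : C(M, ℝ), (surf D φ).IsSurf (area μ φ) ∧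
      ∃ (u : ℕ → M → ℝ) (lam : ℕ → ℝ), IsEigenbasis (surf D φ) (area μ φ) u lam) ∧
    (∀ x, Isothermal D x → ∀ U : Set M, IsOpen U → x ∈ U → ∀ (θ : ℝ) (K : ℕ), 0 < θ →
      ∃ O : Set C(M, ℝ), IsOpen O ∧ Dense O ∧ ∀ φ ∈ O, ∃ k, K ≤ k ∧
        ∀ (u : ℕ → M → ℝ) (lam : ℕ → ℝ), IsEigenbasis (surf D φ) (area μ φ) u lam →
          1 - θ ≤ ∫ y in U, (u k y) ^ 2 ∂(area μ φ)) ∧
    ∀ᶠ φ in residual C(M, ℝ), ∀ x, Isothermal D x → ∃ k : ℕ → ℕ, StrictMono k ∧
      ∀ (u : ℕ → M → ℝ) (lam : ℕ → ℝ), IsEigenbasis (surf D φ) (area μ φ) u lam →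
        ∀ f : C(M, ℝ), Tendsto (fun n => ∫ y, f y * (u (k n) y) ^ 2 ∂(area μ φ)) atTop
          (𝓝 (f x)) := by
  obtain ⟨h1, h2⟩ := Pool.Agent.Q233.CPC.dirac hD
  refine ⟨fun φ => ⟨(Pool.Agent.Y262.QE.tConf M μ D hD _
    (Real.continuous_exp.comp φ.continuous) fun x => Real.exp_pos _).1, ?_⟩, ?_, ?_⟩
  · obtain ⟨u, lam, h⟩ := Pool.Agent.Y264.QR.tEx M μ D hD inferInstance φ
    exact ⟨u, lam, h.eig, h.mono, h.orth, h.total⟩
  · intro x hx U hU hxU θ K hθ
    obtain ⟨ρ, hρ, hρU⟩ := Metric.isOpen_iff.1 hU x hxU
    obtain ⟨O, hO1, hO2, hO3⟩ := h1 x hx (Pool.Agent.Q233.CPC.bmp x ρ hρ)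
      (Pool.Agent.Q233.CPC.bmp_nonneg _ _ _) (Pool.Agent.Q233.CPC.bmp_le _ _ _) (by
        filter_upwards [Metric.closedBall_mem_nhds x (half_pos hρ)] with y hy
        exact Pool.Agent.Q233.CPC.bmp_one hρ (Metric.mem_closedBall.1 hy)) θ K hθ
    refine ⟨O, hO1, hO2, fun φ hφ => ?_⟩
    obtain ⟨k, hk1, hk2⟩ := hO3 φ hφ
    refine ⟨k, hk1, fun u lam hu => (hk2 u lam ⟨hu.eig, hu.mono, hu.orth, hu.total⟩).trans ?_⟩
    rw [← integral_indicator hU.measurableSet]
    have hint : Integrable (fun y => (u k y) ^ 2) (area μ φ) := by
      by_contra h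
      have h3 := hu.orth k k
      have h4 : (fun y => u k y * u k y) = fun y => (u k y) ^ 2 := by
        ext y
        ring
      rw [h4, integral_undef h, if_pos rfl] at h3
      exact zero_ne_one h3
    refine integral_mono_of_nonneg (Eventually.of_forall fun y => mul_nonneg
      (Pool.Agent.Q233.CPC.bmp_nonneg _ _ _ _) (sq_nonneg _)) (hint.indicator hU.measurableSet)
      (Eventually.of_forall fun y => ?_)
    by_cases hy : y ∈ U
    · simp only [indicator_of_mem hy]
      have h5 := Pool.Agent.Q233.CPC.bmp_le x ρ hρ y
      nlinarith [sq_nonneg (u k y)]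
    · simp only [indicator_of_notMem hy]
      rw [Pool.Agent.Q233.CPC.bmp_zero hρ (not_lt.1 fun h => hy (hρU (Metric.mem_ball.2 h))),
        zero_mul]
  · filter_upwards [h2] with φ hφ x hx
    obtain ⟨k, hk1, hk2⟩ := hφ x hx
    exact ⟨k, hk1, fun u lam hu => hk2 u lam ⟨hu.eig, hu.mono, hu.orth, hu.total⟩⟩

end Pool.Agent.Results.MP_07c750_an.PointMasses
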