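import Pool.Agent.Q101.RCSurf

/-!
# Random conformal factors: eigenfunctions average out along sparse sequences, with a rate

Let `(M, g)` be a closed surface with a continuous Riemannian metric and let `P` be a probability
measure on `C(M)` which is quasi-invariant under translations by multiples of the functions of a set
with dense linear span (nondegenerate Gaussian measures, for example). Every sequence of indices
`J k → ∞` has a subsequence `J (N i)` such that for every further subsequence `J (N (s i))`, for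
`P`-almost every `φ` and for every ordered orthonormal basis `u` of eigenfunctions of the metric
`exp φ · g`, the averages of the first `n` of the measures `(u (J (N (s i))))² dA` converge weak-* to
the uniform measure; for the functions `f` of any countable set prescribed in advance the error is at
most `10 ‖f‖ √(log n / n)` for all large `n`.
-/

set_option autoImplicit false

open Set Filter Topology MeasureTheory
open Pool.Agent.Y262.QE

noncomputable section

namespace Pool.Agent.Results.MP_07c750_an.RandomCesaro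

/-- `u 0, u 1, ...` is an orthonormal basis of `L² (μ)` which consists of eigenfunctions of the
Laplacian of the surface `D` with the area `μ`; the eigenvalues `lam 0 ≤ lam 1 ≤ ...` are ordered -/
structure IsEigenbasis {M : Type} [MeasurableSpace M] (D : Data M) (μ : Measure M)
    (u : ℕ → M → ℝ) (lam : ℕ → ℝ) : Prop where
  eig : ∀ j, D.IsEig μ (lam j) (u j)
  mono : Monotone lam
  orth : ∀ i j, ∫ x, u i x * u j x ∂μ = if i = j then 1 else 0
  total : ∀ f : M → ℝ, MemLp f 2 μ → (∀ j, ∫ x, f x * u j x ∂μ = 0) → f =ᵐ[μ] 0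

/-- the surface with the metric `exp φ · g` -/
def surf {M : Type} [TopologicalSpace M] (D : Data M) (φ : C(M, ℝ)) : Data M :=
  D.conf fun x => Real.exp (φ x)

/-- the area of the metric `exp φ · g` -/
def area {M : Type} [TopologicalSpace M] [MeasurableSpace M] (μ : Measure M) (φ : C(M, ℝ)) :
    Measure M :=
  wm μ fun x => Real.exp (φ x)

/-- the mean value of `f` for the measure `A` -/
def mean {M : Type} [TopologicalSpace M] [MeasurableSpace M] (A : Measure M) (f : C(M, ℝ)) : ℝ :=
  (∫ x, f x ∂A) / A.real univ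

/-- the average of the integrals of `f` for the first `n` of the measures `(v i)² dA` -/
def cesaro {M : Type} [TopologicalSpace M] [MeasurableSpace M] (A : Measure M) (v : ℕ → M → ℝ)
    (f : C(M, ℝ)) (n : ℕ) : ℝ :=
  (∑ i ∈ Finset.range n, ∫ x, f x * (v i x) ^ 2 ∂A) / n

theorem result (M : Type) [MetricSpace M] [CompactSpace M] [MeasurableSpace M] [BorelSpace M]
    [Nonempty M] (μ : Measure M) (D : Data M) (hD : D.IsSurf μ) (J : ℕ → ℕ)
    (hJ : Tendsto J atTop atTop)
    [MeasurableSpace C(M, ℝ)] [BorelSpace C(M, ℝ)] (P : Measure C(M, ℝ)) [IsProbabilityMeasure P]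
    (S : Set C(M, ℝ)) (hS : Dense (Submodule.span ℝ S : Set C(M, ℝ)))
    (hP : ∀ h ∈ S, ∀ t : ℝ, P.map (fun φ => φ + t • h) ≪ P)
    (F : Set C(M, ℝ)) (hF : F.Countable) :
    (∀ φ, ∃ (u : ℕ → M → ℝ) (lam : ℕ → ℝ), IsEigenbasis (surf D φ) (area μ φ) u lam) ∧
    ∃ N : ℕ → ℕ, StrictMono N ∧ ∀ s : ℕ → ℕ, StrictMono s →
      ∀ᵐ φ ∂P, ∀ (u : ℕ → M → ℝ) (lam : ℕ → ℝ), IsEigenbasis (surf D φ) (area μ φ) u lam →
        (∀ f : C(M, ℝ), Tendsto (cesaro (area μ φ) (fun i => u (J (N (s i)))) f) atTop
          (𝓝 (mean (area μ φ) f))) ∧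
        ∀ f ∈ F, ∀ᶠ n : ℕ in atTop,
          |cesaro (area μ φ) (fun i => u (J (N (s i)))) f n - mean (area μ φ) f| ≤
            10 * ‖f‖ * √(Real.log n / n) := by
  refine ⟨fun φ => ?_, ?_⟩
  · obtain ⟨u, lam, hu⟩ := Pool.Agent.Y264.QR.tEx M μ D hD inferInstance φ
    exact ⟨u, lam, hu.eig, hu.mono, hu.orth, hu.total⟩
  · obtain ⟨N, hN, h⟩ := Q101.RC.surf_cesaro μ D hD J hJ P S hS hP F hF
    refine ⟨N, hN, fun s hs => ?_⟩
    filter_upwards [h s hs] with φ hφ u lam hu
    exact hφ u lam ⟨hu.eig, hu.mono, hu.orth, hu.total⟩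

end Pool.Agent.Results.MP_07c750_an.RandomCesaro
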